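import Pool.Agent.H7.GT.Stmts
import Pool.Agent.H7.KR.PRE

set_option autoImplicit false

open Finset

namespace Pool.GT7

open Pool.Agent.H23.KT Pool.Agent.H46.KW Pool.KQ

/-- the count of transversals -/
lemma PRC_count {V : Type} [DecidableEq V] (hT : TRVStmt) (G : SimpleGraph V) (p C₁ a : ℕ)
    (ha : 1 ≤ a) (W : Finset V) (A : Fin (p + 3) → Finset V)
    (hW : W.card ≤ (p + 3) * (a + 1))
    (hk : a ^ (p + 4) ≤ (a + C₁) * kc G W (p + 3))
    (hA : Par G A) (hAW : ∀ i, A i ⊆ W) (D : ℕ) (hD : (W \ un A).card ≤ D) :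
    (a : ℝ) ^ (p + 3) - (C₁ + D * (2 * (p + 3)) ^ (p + 2)) * a ^ (p + 2) ≤ ((trv G A).card : ℝ) := by
  have hun : un A ⊆ W := by
    intro v hv
    obtain ⟨i, -, hi⟩ := mem_biUnion.1 hv
    exact hAW i hi
  have ha0 : (0 : ℝ) < a := by exact_mod_cast ha
  -- lower bound for kc
  have h1 : (a : ℝ) ^ (p + 3) - C₁ * a ^ (p + 2) ≤ kc G W (p + 3) := by
    have h2 : a * a ^ (p + 3) ≤ (a + C₁) * kc G W (p + 3) := by
      have e : a * a ^ (p + 3) = a ^ (p + 4) := by ring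
      rw [e]
      exact hk
    have h3 : (a : ℝ) * a ^ (p + 3) ≤ (a + C₁) * kc G W (p + 3) := by exact_mod_cast h2
    have h4 : ((a : ℝ) + C₁) * (a ^ (p + 3) - C₁ * a ^ (p + 2)) ≤ (a + C₁) * kc G W (p + 3) := by
      refine le_trans ?_ h3
      have e1 : ((a : ℝ) + C₁) * (a ^ (p + 3) - C₁ * a ^ (p + 2)) =
          a * a ^ (p + 3) - C₁ ^ 2 * a ^ (p + 2) := by ring
      rw [e1]
      have : (0 : ℝ) ≤ (C₁ : ℝ) ^ 2 * a ^ (p + 2) := by positivity
      linarith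
    exact le_of_mul_le_mul_left h4 (by positivity)
  -- upper bound
  have h2 := kc_le_sum (G := G) W (p + 2) (W \ un A) sdiff_subset
  have e2 : W \ (W \ un A) = un A := by
    rw [sdiff_sdiff_right_self, inf_eq_inter, inter_eq_right.2 hun]
  rw [e2] at h2
  have h3 : ∑ u ∈ W \ un A, kc G (nb G W u) (p + 2) ≤ D * (2 * (p + 3) * a) ^ (p + 2) := by
    calc ∑ u ∈ W \ un A, kc G (nb G W u) (p + 2)
        ≤ ∑ u ∈ W \ un A, (2 * (p + 3) * a) ^ (p + 2) := by
          apply sum_le_sum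
          intro u _
          refine (kc_le_choose G _ _).trans ?_
          refine (Nat.choose_le_pow _ _).trans ?_
          apply Nat.pow_le_pow_left
          have h4 : (nb G W u).card ≤ W.card := card_le_card (fun y hy => ((mem_nb G).1 hy).1)
          nlinarith
      _ = (W \ un A).card * (2 * (p + 3) * a) ^ (p + 2) := by rw [sum_const, smul_eq_mul]
      _ ≤ D * (2 * (p + 3) * a) ^ (p + 2) := Nat.mul_le_mul_right _ hD
  have h4 := (hT G A hA).1
  have h5 : kc G W (p + 3) ≤ D * (2 * (p + 3) * a) ^ (p + 2) + (trv G A).card := by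
    rw [← h4]
    exact h2.trans (Nat.add_le_add_right h3 _)
  have h6 : (kc G W (p + 3) : ℝ) ≤ D * (2 * (p + 3) * a) ^ (p + 2) + (trv G A).card := by
    exact_mod_cast h5
  have e3 : (D : ℝ) * (2 * ((p : ℝ) + 3) * a) ^ (p + 2) =
      D * (2 * ((p : ℝ) + 3)) ^ (p + 2) * a ^ (p + 2) := by
    rw [mul_pow (2 * ((p : ℝ) + 3)) (a : ℝ)]
    ring
  rw [e3] at h6
  linarith

theorem PRC_thm (hK : KZCStmt) (hP : PRTStmt) (hA : AMGStmt) (hT : TRVStmt) (hB : BRKStmt) :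
    PRCStmt := by
  intro p c
  obtain ⟨D, k₀, hk₀⟩ := hK p c
  set C₁ : ℝ := c + D * (2 * ((p : ℝ) + 3)) ^ (p + 2) with hC₁
  have hC₁0 : 0 ≤ C₁ := by positivity
  set C₄ : ℝ := ((p : ℝ) + 3) ^ 2 * (C₁ + 3 ^ (p + 3)) * 2 ^ (p + 1) with hC₄
  have hC₄0 : 0 < C₄ := by positivity
  refine ⟨D + C₄, by positivity, ?_⟩
  intro e he
  set e' : ℝ := min e (1 / 2) with he'
  have he0 : 0 < e' := lt_min he (by norm_num)
  have he1 : e' ≤ 1 / 2 := min_le_right _ _
  have hee : e' ≤ e := min_le_left _ _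
  set M : ℝ := 64 * ((p : ℝ) + 3) ^ 2 * (C₁ + 3 ^ (p + 3)) / e' ^ 2 + 4 / e' + 4 * C₁ / e' + 1 with hM
  have hM1 : 0 ≤ 64 * ((p : ℝ) + 3) ^ 2 * (C₁ + 3 ^ (p + 3)) / e' ^ 2 := by positivity
  have hM2 : 0 ≤ 4 / e' := by positivity
  have hM3 : 0 ≤ 4 * C₁ / e' := by positivity
  refine ⟨max k₀ ⌈M⌉₊, ?_⟩
  intro a ha V _ G W hCB hW hk
  have ha1 : k₀ ≤ a := (le_max_left _ _).trans ha
  have haM : M ≤ a := (Nat.le_ceil M).trans (by exact_mod_cast (le_max_right _ _).trans ha)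
  have haR : (1 : ℝ) ≤ a := by linarith
  have haN : 1 ≤ a := by exact_mod_cast haR
  have ha0 : (0 : ℝ) < a := by linarith
  obtain ⟨L, hL, hLs⟩ := hk₀ a ha1 G W hCB hW hk
  obtain ⟨A, hPar, hAW, hsum⟩ := hP G p W hCB L hL
  have hun : un A ⊆ W := by
    intro v hv
    obtain ⟨i, -, hi⟩ := mem_biUnion.1 hv
    exact hAW i hi
  have hcun : (un A).card = ∑ i, (A i).card := by
    unfold un
    apply card_biUnion
    intro i _ j _ hij
    exact hPar.dis i j hij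
  have hsd : (W \ un A).card ≤ D := by
    rw [card_sdiff_of_subset hun, hcun, hsum]
    omega
  have hcount := PRC_count hT G p c a haN W A hW hk hPar hAW D hsd
  rw [← hC₁] at hcount
  -- trv ≤ product
  have htp : ((trv G A).card : ℝ) ≤ ∏ i, ((A i).card : ℝ) := by
    have : (trv G A).card ≤ ∏ i, (A i).card := by
      classical
      unfold trv
      refine (card_filter_le _ _).trans ?_
      rw [Fintype.card_piFinset]
    exact_mod_cast this
  have hsumle : ∑ i, ((A i).card : ℝ) ≤ ((p : ℝ) + 3) * (a + 1) := by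
    have h1 : ∑ i, (A i).card ≤ (p + 3) * (a + 1) := by
      rw [← hcun]
      exact (card_le_card hun).trans hW
    exact_mod_cast h1
  obtain ⟨hsz, hpr⟩ := Pool.KR.pre_sizes hA p a e' C₁ haR he0 he1 hC₁0 (by linarith) (by linarith)
    (by linarith) (fun i => ((A i).card : ℝ)) (fun i => Nat.cast_nonneg _) hsumle
    (hcount.trans htp)
  refine ⟨A, hPar, hAW, fun i => ⟨?_, ?_⟩, ?_, ?_⟩
  · refine le_trans ?_ (hsz i).1
    exact mul_le_mul_of_nonneg_right (by linarith) ha0.le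
  · refine (hsz i).2.trans ?_
    exact mul_le_mul_of_nonneg_right (by linarith) ha0.le
  · have : ((W \ un A).card : ℝ) ≤ D := by exact_mod_cast hsd
    linarith
  · -- tot
    set d : ℕ := ⌈(a : ℝ) / 2⌉₊ with hd
    have hda : (a : ℝ) / 2 ≤ d := Nat.le_ceil _
    have hdA : ∀ i, d ≤ (A i).card := by
      intro i
      rw [hd, Nat.ceil_le]
      refine le_trans ?_ (hsz i).1
      nlinarith
    have h1 := (hB G p A).2.1 d hdA
    have h2 : (tot G A : ℝ) * d ^ (p + 1) + ((p : ℝ) + 3) ^ 2 * (trv G A).card ≤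
        ((p : ℝ) + 3) ^ 2 * ∏ i, ((A i).card : ℝ) := by exact_mod_cast h1
    have h3 : (tot G A : ℝ) * (a / 2) ^ (p + 1) ≤ tot G A * d ^ (p + 1) :=
      mul_le_mul_of_nonneg_left (pow_le_pow_left₀ (by positivity) hda _) (Nat.cast_nonneg _)
    have h4 : ∏ i, ((A i).card : ℝ) - (trv G A).card ≤ (C₁ + 3 ^ (p + 3)) * a ^ (p + 2) := by
      have := hpr
      nlinarith
    have h5 : (tot G A : ℝ) * (a / 2) ^ (p + 1) ≤
        ((p : ℝ) + 3) ^ 2 * ((C₁ + 3 ^ (p + 3)) * a ^ (p + 2)) := by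
      have h6 : ((p : ℝ) + 3) ^ 2 * (∏ i, ((A i).card : ℝ) - (trv G A).card) ≤
          ((p : ℝ) + 3) ^ 2 * ((C₁ + 3 ^ (p + 3)) * a ^ (p + 2)) :=
        mul_le_mul_of_nonneg_left h4 (by positivity)
      have h7 : ((p : ℝ) + 3) ^ 2 * (∏ i, ((A i).card : ℝ) - (trv G A).card) =
          ((p : ℝ) + 3) ^ 2 * ∏ i, ((A i).card : ℝ) - ((p : ℝ) + 3) ^ 2 * (trv G A).card := by ring
      rw [h7] at h6
      linarith
    have h6 : (tot G A : ℝ) * (a / 2) ^ (p + 1) ≤ (C₄ * a) * (a / 2) ^ (p + 1) := by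
      refine h5.trans (le_of_eq ?_)
      rw [hC₄, div_pow]
      field_simp
      ring
    have h7 := le_of_mul_le_mul_right h6 (by positivity)
    have h8 : (0 : ℝ) ≤ D * a := by positivity
    linarith

end Pool.GT7
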